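import Pool.Agent.Helper54_Ballistic.Ell

/-!
# The Anderson Hamiltonian as a self-adjoint operator

`ham V` is the operator `Δ + V` in `ℓ²(ℤ^d)` with its maximal domain. It is self-adjoint for every real
potential `V`. `resv H` is the resolvent set, `spc H` the spectrum of a partially defined operator.
-/

set_option autoImplicit false
set_option linter.unusedSectionVars false

open scoped InnerProductSpace ComplexConjugate Topology ENNReal
open MeasureTheory Filter

noncomputable section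

namespace Pool.Agent.HAM

open Pool.Agent.Anderson Pool.Agent.Helper54.Bal

variable {d : ℕ}

/-- `(Δ + V) ψ` as a function -/
def act (V : Site d → ℝ) (ψ : Site d → ℂ) (x : Site d) : ℂ := lap ψ x + (V x : ℂ) * ψ x

theorem lap_add (f g : L2 d) (x : Site d) : lap (⇑(f + g)) x = lap f x + lap g x := by
  rw [← Lap_apply, ← Lap_apply, ← Lap_apply, map_add, lp.coeFn_add, Pi.add_apply]

theorem lap_smul (c : ℂ) (f : L2 d) (x : Site d) : lap (⇑(c • f)) x = c * lap f x := by
  rw [← Lap_apply, ← Lap_apply, map_smul, lp.coeFn_smul, Pi.smul_apply, smul_eq_mul]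

theorem act_add (V : Site d → ℝ) (f g : L2 d) : act V (⇑(f + g)) = act V f + act V g := by
  funext x
  show lap (⇑(f + g)) x + (V x : ℂ) * (f + g) x = (lap f x + V x * f x) + (lap g x + V x * g x)
  rw [lap_add, lp.coeFn_add, Pi.add_apply]
  ring

theorem act_smul (V : Site d → ℝ) (c : ℂ) (f : L2 d) : act V (⇑(c • f)) = c • act V f := by
  funext x
  show lap (⇑(c • f)) x + (V x : ℂ) * (c • f) x = c * (lap f x + V x * f x)
  rw [lap_smul, lp.coeFn_smul, Pi.smul_apply, smul_eq_mul]
  ring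

/-- the domain: `ψ ∈ ℓ²` with `(Δ + V) ψ ∈ ℓ²` -/
def dom (V : Site d → ℝ) : Submodule ℂ (L2 d) where
  carrier := {ψ | Memℓp (act V ψ) 2}
  zero_mem' := by
    show Memℓp (act V (⇑(0 : L2 d))) 2
    have h : act V (⇑(0 : L2 d)) = 0 := by
      funext x
      simp [act, lap]
    rw [h]
    exact zero_memℓp
  add_mem' := by
    intro f g hf hg
    show Memℓp (act V (⇑(f + g))) 2
    rw [act_add]
    exact hf.add hg
  smul_mem' := by
    intro c f hf
    show Memℓp (act V (⇑(c • f))) 2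
    rw [act_smul]
    exact hf.const_smul c

/-- the operator `H = Δ + V` -/
def ham (V : Site d → ℝ) : L2 d →ₗ.[ℂ] L2 d where
  domain := dom V
  toFun :=
    { toFun := fun ψ => ⟨act V (ψ : L2 d), ψ.2⟩
      map_add' := fun f g => by
        ext x
        exact congrFun (act_add V f g) x
      map_smul' := fun c f => by
        ext x
        exact congrFun (act_smul V c f) x }

theorem ham_apply (V : Site d → ℝ) (ψ : (ham V).domain) (x : Site d) :
    ham V ψ x = lap (⇑(ψ : L2 d)) x + (V x : ℂ) * (ψ : L2 d) x := rfl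

theorem mem_dom {V : Site d → ℝ} {ψ : L2 d} :
    ψ ∈ (ham V).domain ↔ Memℓp (act V ψ) 2 := Iff.rfl

/-- the resolvent maps into the domain -/
theorem G_mem {V : Site d → ℝ} {z : ℂ} (hz : z.im ≠ 0) (f : L2 d) : G V z f ∈ (ham V).domain := by
  rw [mem_dom]
  have h : act V (G V z f) = ⇑(f + z • G V z f) := by
    funext x
    have h1 := G_eq (V := V) hz f x
    rw [lp.coeFn_add, Pi.add_apply, lp.coeFn_smul, Pi.smul_apply, smul_eq_mul]
    unfold act
    rw [← h1]
    ring
  rw [h]
  exact lp.memℓp _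

/-- `H (H - z)⁻¹ f = f + z (H - z)⁻¹ f` -/
theorem ham_G {V : Site d → ℝ} {z : ℂ} (hz : z.im ≠ 0) (f : L2 d) :
    ham V ⟨G V z f, G_mem hz f⟩ = f + z • G V z f := by
  ext x
  rw [ham_apply, lp.coeFn_add, Pi.add_apply, lp.coeFn_smul, Pi.smul_apply, smul_eq_mul]
  have h1 := G_eq (V := V) hz f x
  rw [← h1]
  show lap (⇑(G V z f)) x + (V x : ℂ) * G V z f x = _
  ring

/-- `(H - z)⁻¹ (H - z) ψ = ψ` -/
theorem G_ham {V : Site d → ℝ} {z : ℂ} (hz : z.im ≠ 0) (ψ : (ham V).domain) :
    G V z (ham V ψ - z • (ψ : L2 d)) = ψ := by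
  symm
  apply G_unique hz
  intro x
  rw [lp.coeFn_sub, Pi.sub_apply, lp.coeFn_smul, Pi.smul_apply, smul_eq_mul, ham_apply]
  ring

theorem dense_dom (V : Site d → ℝ) : Dense ((ham V).domain : Set (L2 d)) := by
  have hI : Complex.I.im ≠ 0 := by simp
  have h := (isRes_G V).dense_range hI
  refine h.mono ?_
  rintro _ ⟨f, rfl⟩
  exact G_mem hI f

/-- THE OPERATOR IS SELF-ADJOINT, for every real potential -/
theorem ham_adjoint (V : Site d → ℝ) : (ham V).adjoint = ham V := by
  have hI : Complex.I.im ≠ 0 := by simp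
  have hI' : (conj Complex.I).im ≠ 0 := by simp
  have hdense := dense_dom V
  -- symmetry
  have hsym : (ham V).IsFormalAdjoint (ham V) := by
    intro x y
    -- `x = G (conj I) a`, `y = G I b`
    have hx := G_ham hI' x
    have hy := G_ham hI y
    set a : L2 d := ham V x - (conj Complex.I) • (x : L2 d) with ha
    set b : L2 d := ham V y - Complex.I • (y : L2 d) with hb
    have e1 : ham V x = a + (conj Complex.I) • (x : L2 d) := by rw [ha]; abel
    have e2 : ham V y = b + Complex.I • (y : L2 d) := by rw [hb]; abel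
    rw [e1, e2, inner_add_left, inner_add_right, inner_smul_left, inner_smul_right,
      Complex.conj_conj]
    congr 1
    rw [← hx, ← hy]
    have h := (isRes_G V).adj (conj Complex.I) hI' a b
    rw [Complex.conj_conj] at h
    exact h.symm
  refine le_antisymm ?_ (LinearPMap.IsFormalAdjoint.le_adjoint hdense hsym)
  -- the adjoint is contained in `ham V`
  have key : ∀ y : (ham V).adjoint.domain, ∃ h : (y : L2 d) ∈ (ham V).domain,
      ham V ⟨y, h⟩ = (ham V).adjoint y := by
    intro y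
    set w := (ham V).adjoint y with hw
    have hform := LinearPMap.adjoint_isFormalAdjoint hdense
    have h1 : (y : L2 d) = G V Complex.I (w - Complex.I • (y : L2 d)) := by
      refine ext_inner_right ℂ fun f => ?_
      have h2 := hform y ⟨G V (conj Complex.I) f, G_mem hI' f⟩
      rw [ham_G hI'] at h2
      rw [← hw] at h2
      -- ⟪w, G f⟫ = ⟪y, f + conj I • G f⟫
      rw [(isRes_G V).adj Complex.I hI, inner_sub_left, inner_smul_left]
      rw [inner_add_right, inner_smul_right] at h2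
      have h3 : ⟪w, G V (conj Complex.I) f⟫_ℂ =
          ⟪(y : L2 d), f⟫_ℂ + conj Complex.I * ⟪(y : L2 d), G V (conj Complex.I) f⟫_ℂ := h2
      rw [h3]
      ring
    have h2 : (y : L2 d) ∈ (ham V).domain := by
      rw [h1]
      exact G_mem hI _
    refine ⟨h2, ?_⟩
    have h3 := ham_G hI (V := V) (w - Complex.I • (y : L2 d))
    have h4 : (⟨G V Complex.I (w - Complex.I • (y : L2 d)), G_mem hI _⟩ : (ham V).domain) =
        ⟨y, h2⟩ := Subtype.ext h1.symm
    rw [h4, ← h1] at h3
    rw [h3]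
    abel
  refine ⟨fun y hy => (key ⟨y, hy⟩).1, ?_⟩
  intro y y' hyy'
  obtain ⟨h1, h2⟩ := key y
  rw [← h2]
  congr 1
  exact Subtype.ext hyy'

theorem ham_selfAdjoint (V : Site d → ℝ) : IsSelfAdjoint (ham V) := ham_adjoint V

/-! ### spectrum -/

section spc

variable {X : Type*} [NormedAddCommGroup X] [InnerProductSpace ℂ X]

/-- `z` is in the resolvent set of the operator `A`: `A - z` maps the domain of `A` onto `X`, it is
injective and the inverse is bounded -/
def InRes (A : X →ₗ.[ℂ] X) (z : ℂ) : Prop :=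
  ∃ R : X →L[ℂ] X, (∀ f : X, ∃ h : R f ∈ A.domain, A ⟨R f, h⟩ - z • R f = f) ∧
    ∀ ψ : A.domain, R (A ψ - z • (ψ : X)) = ψ

/-- the spectrum -/
def spc (A : X →ₗ.[ℂ] X) : Set ℂ := {z | ¬ InRes A z}

/-- approximate eigenvectors belong to the spectrum -/
theorem mem_spc {A : X →ₗ.[ℂ] X} {z : ℂ}
    (h : ∀ ε : ℝ, 0 < ε → ∃ ψ : A.domain, ‖(ψ : X)‖ = 1 ∧ ‖A ψ - z • (ψ : X)‖ ≤ ε) :
    z ∈ spc A := by
  rintro ⟨R, -, hR⟩
  obtain ⟨ψ, h1, h2⟩ := h (1 / (2 * (‖R‖ + 1))) (by positivity)
  have h3 : ‖(ψ : X)‖ ≤ ‖R‖ * ‖A ψ - z • (ψ : X)‖ := by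
    conv_lhs => rw [← hR ψ]
    exact R.le_opNorm _
  have h4 : ‖R‖ * ‖A ψ - z • (ψ : X)‖ ≤ ‖R‖ * (1 / (2 * (‖R‖ + 1))) :=
    mul_le_mul_of_nonneg_left h2 (norm_nonneg _)
  have h5 : ‖R‖ * (1 / (2 * (‖R‖ + 1))) < 1 := by
    rw [mul_one_div, div_lt_one (by positivity)]
    linarith [norm_nonneg R]
  linarith

end spc

/-- non-real numbers are in the resolvent set; the resolvent is `G V z` -/
theorem inRes {V : Site d → ℝ} {z : ℂ} (hz : z.im ≠ 0) : InRes (ham V) z := by
  refine ⟨G V z, fun f => ⟨G_mem hz f, ?_⟩, fun ψ => G_ham hz ψ⟩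
  rw [ham_G hz]
  abel

/-- quasimodes at every energy: the spectrum is the real line -/
theorem spc_eq {V : Site d → ℝ} (h : ∀ E ε : ℝ, 0 < ε → ∃ φ : L2 d, ‖φ‖ = 1 ∧ IsQuasi V ε E φ) :
    spc (ham V) = {z : ℂ | z.im = 0} := by
  ext z
  constructor
  · intro hz
    by_contra hz'
    exact hz (inRes hz')
  · intro hz
    have hz : z.im = 0 := hz
    have hz' : z = (z.re : ℂ) := Complex.ext rfl (by simpa using hz)
    apply mem_spc
    intro ε hε
    obtain ⟨φ, h1, -, r, h2, h3⟩ := h z.re ε hε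
    have hact : act V φ = ⇑(r + (z.re : ℂ) • φ) := by
      funext x
      rw [lp.coeFn_add, Pi.add_apply, lp.coeFn_smul, Pi.smul_apply, smul_eq_mul, ← h3 x]
      unfold act
      ring
    have hmem : φ ∈ (ham V).domain := by
      rw [mem_dom, hact]
      exact lp.memℓp _
    refine ⟨⟨φ, hmem⟩, h1, ?_⟩
    have h4 : ham V ⟨φ, hmem⟩ - z • φ = r := by
      ext x
      rw [lp.coeFn_sub, Pi.sub_apply, lp.coeFn_smul, Pi.smul_apply, smul_eq_mul, ham_apply, ← h3 x,
        hz']
      simp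
    rw [h4]
    exact h2

end Pool.Agent.HAM
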